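import Pool.Agent.helper6.EV.Spec

/-!
# Project ev, module FI: assembly of Part III
-/

set_option autoImplicit false

namespace Pool.Agent.EV

open N1f72dd46 Filter MeasureTheory Complex Metric Pool.Agent.helper6.LD

theorem FI (hTH : TH_stmt) (hMA : MA_stmt) (hBU : BU_stmt) : FI_stmt := by
  intro hQ
  obtain ⟨φ, C, hφ1, hφ2, hC, hth⟩ := hTH hQ
  obtain ⟨n0, hn0⟩ := hMA φ C hφ1 hφ2 hC hth
  set κ : ℝ := (1 - φ) / 8 with hκ
  have hκ0 : 0 < κ := by rw [hκ]; linarith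
  have hκ1 : κ ≤ 1 / 16 := by rw [hκ]; linarith
  refine ⟨κ / 4, by positivity, ?_⟩
  have t1 : Tendsto (fun n : ℕ => (n : ℝ) ^ (κ / 4)) atTop atTop :=
    (tendsto_rpow_atTop (by positivity)).comp tendsto_natCast_atTop_atTop
  filter_upwards [t1.eventually_ge_atTop 10, eventually_ge_atTop n0, eventually_ge_atTop 4]
    with n h10 hn hn4
  have hn4' : (4 : ℝ) ≤ n := by exact_mod_cast hn4
  have hnp : (0 : ℝ) < n := by linarith
  have hX2 : (Real.sqrt n) ^ 2 = n := Real.sq_sqrt hnp.le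
  have hX : 2 ≤ Real.sqrt n := by
    apply Real.le_sqrt_of_sq_le
    linarith
  obtain ⟨q, hq⟩ := hn0 n (Real.sqrt n) hn (Real.sqrt_nonneg _) hX2
  have h1 := hBU n κ (Real.sqrt n) q hκ0 hκ1 hX hX2 hq
  have h2 : (Real.sqrt n) ^ (3 - κ) = (n : ℝ) ^ ((3 - κ) / 2) := by
    rw [Real.sqrt_eq_rpow, ← Real.rpow_mul hnp.le]
    congr 1
    ring
  have h3 : (n : ℝ) ^ (3 / 2 - κ / 4 : ℝ) = (n : ℝ) ^ (κ / 4) * (n : ℝ) ^ ((3 - κ) / 2) := by
    rw [← Real.rpow_add hnp]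
    congr 1
    ring
  have h4 : (0 : ℝ) < (n : ℝ) ^ ((3 - κ) / 2) := Real.rpow_pos_of_pos hnp _
  rw [h3]
  rw [h2] at h1
  nlinarith

end Pool.Agent.EV
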