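import Pool.Agent.helper6.EV.Spec

/-!
# Project ev, module PS1: from the integral of `ψ(t) - t` to `ψ`
-/

set_option autoImplicit false

namespace Pool.Agent.EV

open N1f72dd46 Filter MeasureTheory Complex Metric Pool.Agent.helper6.LD

theorem PS1_int (a b : ℝ) : IntervalIntegrable Chebyshev.psi volume a b :=
  Chebyshev.psi_mono.intervalIntegrable

theorem PS1_int' (a b : ℝ) : IntervalIntegrable (fun t => Chebyshev.psi t - t) volume a b :=
  (PS1_int a b).sub intervalIntegral.intervalIntegrable_id

theorem PS1_diff (a b : ℝ) : ∫ t in a..b, Chebyshev.psi t = Rx b - Rx a + (b ^ 2 - a ^ 2) / 2 := by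
  have h1 : Rx b - Rx a = ∫ t in a..b, (Chebyshev.psi t - t) := by
    unfold Rx
    exact intervalIntegral.integral_interval_sub_left (PS1_int' 1 b) (PS1_int' 1 a)
  rw [h1, intervalIntegral.integral_sub (PS1_int a b) intervalIntegral.intervalIntegrable_id, integral_id]
  ring

theorem PS1 : PS1_stmt := by
  intro σ C hσ0 hσ1 hC hR
  refine ⟨16 * C + 2, by positivity, ?_⟩
  intro x hx
  set P : ℝ := x ^ ((1 + σ) / 2) with hP
  have hx0 : 0 < x := by linarith
  have hP0 : 1 ≤ P := Real.one_le_rpow hx (by linarith)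
  have hPx : P ≤ x := by
    have := Real.rpow_le_rpow_of_exponent_le hx (show (1 + σ) / 2 ≤ 1 by linarith)
    rwa [Real.rpow_one] at this
  have hPP : x ^ (1 + σ) = P * P := by
    rw [hP, ← Real.rpow_add hx0]
    congr 1
    ring
  have hpsi0 : 0 ≤ Chebyshev.psi x := Chebyshev.psi_nonneg x
  rcases lt_or_ge x 2 with hx2 | hx2
  · have h0 : Chebyshev.psi x = 0 := Chebyshev.psi_eq_zero_of_lt_two hx2
    rw [h0, zero_sub, abs_neg, abs_of_pos hx0]
    nlinarith
  · set h : ℝ := P / 2 with hh
    have hh0 : 0 < h := by positivity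
    have hhx : h ≤ x / 2 := by rw [hh]; linarith
    have hpow : ∀ y : ℝ, 1 ≤ y → y ≤ 2 * x → |Rx y| ≤ 4 * C * (P * P) := by
      intro y hy1 hy2
      have h1 := hR y hy1
      have h2 : y ^ (1 + σ) ≤ (2 * x) ^ (1 + σ) :=
        Real.rpow_le_rpow (by linarith) hy2 (by linarith)
      have h3 : (2 * x) ^ (1 + σ) = 2 ^ (1 + σ) * (P * P) := by
        rw [Real.mul_rpow (by norm_num) hx0.le, hPP]
      have h4 : (2 : ℝ) ^ (1 + σ) ≤ 4 := by
        have := Real.rpow_le_rpow_of_exponent_le (show (1 : ℝ) ≤ 2 by norm_num)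
          (show 1 + σ ≤ 2 by linarith)
        have h5 : (2 : ℝ) ^ (2 : ℝ) = 4 := by norm_num
        linarith
      have h6 : 0 ≤ P * P := by positivity
      calc |Rx y| ≤ C * y ^ (1 + σ) := h1
        _ ≤ C * (4 * (P * P)) := by
            apply mul_le_mul_of_nonneg_left _ hC.le
            rw [h3] at h2
            nlinarith
        _ = 4 * C * (P * P) := by ring
    have e1 := hpow x hx (by linarith)
    have e2 := hpow (x + h) (by linarith) (by linarith)
    have e3 := hpow (x - h) (by linarith) (by linarith)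
    rw [abs_le] at e1 e2 e3
    -- upper bound
    have up : h * Chebyshev.psi x ≤ ∫ t in x..(x + h), Chebyshev.psi t := by
      have h1 : ∫ _t in x..(x + h), Chebyshev.psi x ≤ ∫ t in x..(x + h), Chebyshev.psi t := by
        apply intervalIntegral.integral_mono_on (by linarith) intervalIntegrable_const (PS1_int _ _)
        intro t ht
        exact Chebyshev.psi_mono ht.1
      rw [intervalIntegral.integral_const] at h1
      have h2 : x + h - x = h := by ring
      rw [h2, smul_eq_mul] at h1
      exact h1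
    have lo : ∫ t in (x - h)..x, Chebyshev.psi t ≤ h * Chebyshev.psi x := by
      have h1 : ∫ t in (x - h)..x, Chebyshev.psi t ≤ ∫ _t in (x - h)..x, Chebyshev.psi x := by
        apply intervalIntegral.integral_mono_on (by linarith) (PS1_int _ _) intervalIntegrable_const
        intro t ht
        exact Chebyshev.psi_mono ht.2
      rw [intervalIntegral.integral_const] at h1
      have h2 : x - (x - h) = h := by ring
      rw [h2, smul_eq_mul] at h1
      exact h1
    rw [PS1_diff] at up lo
    have hP2 : P = 2 * h := by rw [hh]; ring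
    have up' : h * (Chebyshev.psi x - x) ≤ h * ((16 * C + 2) * P) := by
      have : h * (Chebyshev.psi x - x) ≤ 8 * C * (P * P) + h * h / 2 := by nlinarith
      rw [hP2] at this ⊢
      nlinarith [mul_pos hh0 hh0, mul_pos hC (mul_pos hh0 hh0)]
    have lo' : h * (-((16 * C + 2) * P)) ≤ h * (Chebyshev.psi x - x) := by
      have : -(8 * C * (P * P)) - h * h / 2 ≤ h * (Chebyshev.psi x - x) := by nlinarith
      rw [hP2] at this ⊢
      nlinarith [mul_pos hh0 hh0, mul_pos hC (mul_pos hh0 hh0)]
    rw [abs_le]
    exact ⟨le_of_mul_le_mul_left lo' hh0, le_of_mul_le_mul_left up' hh0⟩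

end Pool.Agent.EV
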